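import Pool.Agent.H295R3.D6.Stmts

set_option autoImplicit false

open Finset Filter

namespace Pool.Agent.H295R3.D6.TKD

open Classical in
/-- squarefree `k ≤ K` with all primes larger than `y` -/
noncomputable def Q (y K : ℕ) : Finset ℕ :=
  (Icc 1 K).filter (fun k => Squarefree k ∧ ∀ l : ℕ, l.Prime → l ∣ k → y < l)

noncomputable def W (y K : ℕ) : ℝ := ∑ k ∈ Q y K, (1 : ℝ) / k

noncomputable def S (a k : ℕ) : ℝ := ∑ l ∈ (Icc 1 a).filter (fun l => l.Prime ∧ l ∣ k), Real.log l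

open Classical in
theorem mem_Q {y K k : ℕ} : k ∈ Q y K ↔ (1 ≤ k ∧ k ≤ K) ∧ Squarefree k ∧
    ∀ l : ℕ, l.Prime → l ∣ k → y < l := by
  unfold Q
  rw [mem_filter, mem_Icc]

theorem S_nonneg (a k : ℕ) : 0 ≤ S a k := by
  unfold S
  refine sum_nonneg fun l hl => ?_
  rw [mem_filter, mem_Icc] at hl
  exact Real.log_nonneg (by exact_mod_cast hl.1.1)

theorem S_mono {a b : ℕ} (h : a ≤ b) (k : ℕ) : S a k ≤ S b k := by
  unfold S
  refine sum_le_sum_of_subset_of_nonneg ?_ ?_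
  · intro l hl
    rw [mem_filter, mem_Icc] at hl ⊢
    exact ⟨⟨hl.1.1, by omega⟩, hl.2⟩
  · intro l hl _
    rw [mem_filter, mem_Icc] at hl
    exact Real.log_nonneg (by exact_mod_cast hl.1.1)

theorem S_le {a k K : ℕ} (hk : 1 ≤ k) (hkK : k ≤ K) : S a k ≤ (K : ℝ) * K := by
  unfold S
  calc ∑ l ∈ (Icc 1 a).filter (fun l => l.Prime ∧ l ∣ k), Real.log l
      ≤ ∑ l ∈ Icc 1 K, Real.log l := by
        refine sum_le_sum_of_subset_of_nonneg ?_ ?_
        · intro l hl
          rw [mem_filter, mem_Icc] at hl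
          rw [mem_Icc]
          exact ⟨hl.1.1, (Nat.le_of_dvd hk hl.2.2).trans hkK⟩
        · intro l hl _
          rw [mem_Icc] at hl
          exact Real.log_nonneg (by exact_mod_cast hl.1)
    _ ≤ ∑ l ∈ Icc 1 K, (K : ℝ) := by
        refine sum_le_sum fun l hl => ?_
        rw [mem_Icc] at hl
        refine (Real.log_le_self (by positivity)).trans ?_
        exact_mod_cast hl.2
    _ = (K : ℝ) * K := by simp

theorem W_nonneg (y K : ℕ) : 0 ≤ W y K := by
  unfold W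
  exact sum_nonneg fun k _ => by positivity

/-- multiples of `l` -/
theorem mult (y K : ℕ) {l : ℕ} (hl : l.Prime) :
    ∑ k ∈ (Q y K).filter (fun k => l ∣ k), (1 : ℝ) / k ≤ (1 / l) * W y K := by
  have hl0 : 0 < l := hl.pos
  unfold W
  rw [mul_sum]
  have h1 : ∀ k ∈ (Q y K).filter (fun k => l ∣ k), (1 : ℝ) / k = 1 / l * (1 / ((k / l : ℕ) : ℝ)) := by
    intro k hk
    rw [mem_filter] at hk
    obtain ⟨c, rfl⟩ := hk.2
    rw [Nat.mul_div_cancel_left _ hl0]
    push_cast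
    rw [← one_div_mul_one_div]
  rw [sum_congr rfl h1]
  have h2 : Set.InjOn (fun k => k / l) ((Q y K).filter (fun k => l ∣ k) : Set ℕ) := by
    intro a ha b hb hab
    rw [mem_coe, mem_filter] at ha hb
    simp only at hab
    rw [← Nat.div_mul_cancel ha.2, ← Nat.div_mul_cancel hb.2, hab]
  rw [← sum_image (f := fun k : ℕ => (1 : ℝ) / l * (1 / (k : ℝ))) h2]
  refine sum_le_sum_of_subset_of_nonneg ?_ (fun _ _ _ => by positivity)
  intro k hk
  rw [mem_image] at hk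
  obtain ⟨a, ha, rfl⟩ := hk
  rw [mem_filter, mem_Q] at ha
  obtain ⟨⟨⟨h1, h2⟩, h3, h4⟩, c, rfl⟩ := ha
  rw [Nat.mul_div_cancel_left _ hl0, mem_Q]
  refine ⟨⟨Nat.pos_of_ne_zero ?_, ?_⟩, h3.of_mul_right, fun q hq hqc => h4 q hq (hqc.mul_left l)⟩
  · rintro rfl; simp at h1
  · exact (Nat.le_mul_of_pos_left c hl0).trans h2

theorem avg (y K a : ℕ) : ∑ k ∈ Q y K, (1 / (k : ℝ)) * S a k ≤
    (∑ l ∈ (Icc 1 a).filter (fun l => l.Prime ∧ y < l), Real.log l / l) * W y K := by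
  have h1 : ∀ k ∈ Q y K, (1 / (k : ℝ)) * S a k =
      ∑ l ∈ (Icc 1 a).filter (fun l => l.Prime ∧ y < l), if l ∣ k then Real.log l * (1 / (k : ℝ)) else 0 := by
    intro k hk
    rw [mem_Q] at hk
    unfold S
    rw [mul_sum, ← sum_filter, filter_filter]
    refine sum_congr ?_ fun l _ => by ring
    ext l
    rw [mem_filter, mem_filter]
    constructor
    · rintro ⟨h1, h2, h3⟩
      exact ⟨h1, ⟨h2, hk.2.2 l h2 h3⟩, h3⟩
    · rintro ⟨h1, h2, h3⟩
      exact ⟨h1, h2.1, h3⟩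
  rw [sum_congr rfl h1, sum_comm, sum_mul]
  refine sum_le_sum fun l hl => ?_
  rw [mem_filter, mem_Icc] at hl
  rw [← sum_filter, ← mul_sum]
  have h2 := mult y K hl.2.1
  have h3 : 0 ≤ Real.log l := Real.log_nonneg (by exact_mod_cast hl.1.1)
  calc Real.log l * ∑ k ∈ (Q y K).filter (fun k => l ∣ k), (1 : ℝ) / k
      ≤ Real.log l * ((1 / l) * W y K) := mul_le_mul_of_nonneg_left h2 h3
    _ = Real.log l / l * W y K := by ring

theorem mert_range {C : ℝ} (hC : ∀ N : ℕ, 1 ≤ N →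
    |∑ p ∈ (Icc 1 N).filter Nat.Prime, Real.log p / p - Real.log N| ≤ C) {y a : ℕ} (hy : 1 ≤ y)
    (hya : y ≤ a) : ∑ l ∈ (Icc 1 a).filter (fun l => l.Prime ∧ y < l), Real.log l / l ≤
      Real.log a - Real.log y + 2 * C := by
  have h1 := hC y hy
  have h2 := hC a (by omega)
  have h3 : ∑ p ∈ (Icc 1 a).filter Nat.Prime, Real.log p / p =
      ∑ p ∈ (Icc 1 y).filter Nat.Prime, Real.log p / p +
        ∑ l ∈ (Icc 1 a).filter (fun l => l.Prime ∧ y < l), Real.log l / l := by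
    rw [← sum_union]
    · refine sum_congr ?_ fun _ _ => rfl
      ext l
      rw [mem_union, mem_filter, mem_filter, mem_filter, mem_Icc, mem_Icc]
      constructor
      · rintro ⟨h1, h2⟩
        by_cases h : l ≤ y
        · exact Or.inl ⟨⟨h1.1, h⟩, h2⟩
        · exact Or.inr ⟨h1, h2, by omega⟩
      · rintro (⟨h1, h2⟩ | ⟨h1, h2⟩)
        · exact ⟨⟨h1.1, by omega⟩, h2⟩
        · exact ⟨h1, h2.1⟩
    · rw [disjoint_left]
      intro l hl hl'
      rw [mem_filter, mem_Icc] at hl hl'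
      omega
  rw [abs_le] at h1 h2
  linarith [h1.1, h2.2]

theorem geo (I : ℕ) : ∑ i ∈ range I, ((i : ℝ) + 1) / 2 ^ i ≤ 4 ∧ ∑ i ∈ range I, (1 : ℝ) / 2 ^ i ≤ 2 := by
  have h1 : ∑ i ∈ range I, ((i : ℝ) + 1) / 2 ^ i = 4 - 2 * ((I : ℝ) + 2) / 2 ^ I := by
    induction I with
    | zero => norm_num
    | succ I ih =>
      rw [sum_range_succ, ih]
      push_cast
      rw [pow_succ]
      field_simp
      ring
  have h2 : ∑ i ∈ range I, (1 : ℝ) / 2 ^ i = 2 - 2 / 2 ^ I := by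
    clear h1
    induction I with
    | zero => norm_num
    | succ I ih =>
      rw [sum_range_succ, ih, pow_succ]
      field_simp
      ring
  rw [h1, h2]
  constructor
  · have : 0 ≤ 2 * ((I : ℝ) + 2) / 2 ^ I := by positivity
    linarith
  · have : (0 : ℝ) ≤ 2 / 2 ^ I := by positivity
    linarith

/-- the bad `k` have at most half of the weight -/
theorem bad {C : ℝ} (hC : ∀ N : ℕ, 1 ≤ N →
    |∑ p ∈ (Icc 1 N).filter Nat.Prime, Real.log p / p - Real.log N| ≤ C) {y : ℕ} (hy1 : 1 ≤ y)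
    (hy : 48 * (1 + C) ≤ y) (K : ℕ) {B : Finset ℕ} (hB : B ⊆ Q y K)
    (hbad : ∀ k ∈ B, ∃ a : ℕ, y ≤ a ∧ (a : ℝ) < 6 * S a k) :
    ∑ k ∈ B, (1 : ℝ) / k ≤ W y K / 2 := by
  have hC0 : 0 ≤ C := (abs_nonneg _).trans (hC 1 le_rfl)
  have hyR : (0 : ℝ) < y := by exact_mod_cast hy1
  set I := 6 * (K * K) + 1 with hI
  have key : ∀ k ∈ B, (1 : ℝ) / k ≤
      ∑ i ∈ range I, 6 / (2 ^ i * (y : ℝ)) * ((1 / (k : ℝ)) * S (2 ^ (i + 1) * y) k) := by
    intro k hk
    obtain ⟨a, hya, ha⟩ := hbad k hk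
    have hkQ := mem_Q.1 (hB hk)
    have hk0 : (0 : ℝ) < k := by exact_mod_cast hkQ.1.1
    set i := Nat.log 2 (a / y) with hi
    have hay : a / y ≠ 0 := by
      rw [Nat.div_ne_zero_iff]; omega
    have h1 : 2 ^ i ≤ a / y := Nat.pow_log_le_self 2 hay
    have h2 : a / y < 2 ^ (i + 1) := Nat.lt_pow_succ_log_self (by norm_num) _
    have h3 : 2 ^ i * y ≤ a := (Nat.le_div_iff_mul_le hy1).1 h1
    have h4 : a < 2 ^ (i + 1) * y := (Nat.div_lt_iff_lt_mul hy1).1 h2
    have h5 : i ∈ range I := by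
      rw [mem_range]
      have e1 : (a : ℝ) < 6 * (K * K) := ha.trans_le (by linarith [S_le (a := a) hkQ.1.1 hkQ.1.2])
      have e2 : a < 6 * (K * K) := by exact_mod_cast e1
      have e3 : i < 2 ^ i := Nat.lt_two_pow_self
      have e4 : 2 ^ i ≤ 2 ^ i * y := Nat.le_mul_of_pos_right _ hy1
      omega
    refine le_trans ?_ (single_le_sum (f := fun i => 6 / (2 ^ i * (y : ℝ)) *
      ((1 / (k : ℝ)) * S (2 ^ (i + 1) * y) k)) (fun j _ => ?_) h5)
    · have h6 := S_mono h4.le k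
      have h7 : (2 : ℝ) ^ i * y ≤ a := by exact_mod_cast h3
      have h8 : (2 : ℝ) ^ i * y ≤ 6 * S (2 ^ (i + 1) * y) k := by linarith
      have h9 : (0 : ℝ) < 2 ^ i * y := by positivity
      have h10 : (1 : ℝ) ≤ 6 / (2 ^ i * (y : ℝ)) * S (2 ^ (i + 1) * y) k := by
        rw [div_mul_eq_mul_div, le_div_iff₀ h9]
        linarith
      calc (1 : ℝ) / k = 1 / k * 1 := by ring
        _ ≤ 1 / k * (6 / (2 ^ i * (y : ℝ)) * S (2 ^ (i + 1) * y) k) :=
          mul_le_mul_of_nonneg_left h10 (by positivity)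
        _ = _ := by ring
    · have := S_nonneg (2 ^ (j + 1) * y) k
      positivity
  calc ∑ k ∈ B, (1 : ℝ) / k
      ≤ ∑ k ∈ B, ∑ i ∈ range I, 6 / (2 ^ i * (y : ℝ)) * ((1 / (k : ℝ)) * S (2 ^ (i + 1) * y) k) :=
        sum_le_sum key
    _ ≤ ∑ k ∈ Q y K, ∑ i ∈ range I, 6 / (2 ^ i * (y : ℝ)) * ((1 / (k : ℝ)) * S (2 ^ (i + 1) * y) k) := by
        refine sum_le_sum_of_subset_of_nonneg hB fun k _ _ => sum_nonneg fun j _ => ?_
        have := S_nonneg (2 ^ (j + 1) * y) k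
        positivity
    _ = ∑ i ∈ range I, 6 / (2 ^ i * (y : ℝ)) * ∑ k ∈ Q y K, (1 / (k : ℝ)) * S (2 ^ (i + 1) * y) k := by
        rw [sum_comm]
        exact sum_congr rfl fun i _ => (mul_sum _ _ _).symm
    _ ≤ ∑ i ∈ range I, 6 / (2 ^ i * (y : ℝ)) * ((((i : ℝ) + 1) + 2 * C) * W y K) := by
        refine sum_le_sum fun i _ => mul_le_mul_of_nonneg_left ?_ (by positivity)
        refine (avg y K _).trans (mul_le_mul_of_nonneg_right ?_ (W_nonneg y K))
        refine (mert_range hC hy1 (Nat.le_mul_of_pos_left y (by positivity))).trans ?_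
        push_cast
        rw [Real.log_mul (by positivity) (by positivity), Real.log_pow]
        have h1 : Real.log 2 ≤ 1 := by linarith [Real.log_two_lt_d9]
        push_cast
        nlinarith [show (0 : ℝ) ≤ (i : ℝ) + 1 by positivity]
    _ = 6 / (y : ℝ) * W y K * (∑ i ∈ range I, ((i : ℝ) + 1) / 2 ^ i +
          2 * C * ∑ i ∈ range I, (1 : ℝ) / 2 ^ i) := by
        rw [mul_sum, ← sum_add_distrib, mul_sum]
        refine sum_congr rfl fun i _ => ?_
        field_simp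
    _ ≤ 6 / (y : ℝ) * W y K * (4 + 2 * C * 2) := by
        refine mul_le_mul_of_nonneg_left ?_ (mul_nonneg (by positivity) (W_nonneg y K))
        have := geo I
        have h2 : 2 * C * ∑ i ∈ range I, (1 : ℝ) / 2 ^ i ≤ 2 * C * 2 :=
          mul_le_mul_of_nonneg_left this.2 (by positivity)
        linarith [this.1]
    _ = W y K * (24 * (1 + C) / y) := by ring
    _ ≤ W y K * (1 / 2) := by
        refine mul_le_mul_of_nonneg_left ?_ (W_nonneg y K)
        rw [div_le_div_iff₀ hyR (by norm_num)]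
        linarith
    _ = W y K / 2 := by ring

theorem sum_sq (K : ℕ) : ∑ d ∈ Icc 1 K, (1 : ℝ) / (d : ℝ) ^ 2 ≤ 2 := by
  rcases Nat.eq_zero_or_pos K with rfl | hK
  · norm_num
  have h : ∑ d ∈ Icc 1 K, (1 : ℝ) / (d : ℝ) ^ 2 ≤ 2 - 1 / (K : ℝ) := by
    induction K, hK using Nat.le_induction with
    | base => norm_num
    | succ K hK ih =>
      rw [Finset.sum_Icc_succ_top (by omega)]
      have hK' : (0 : ℝ) < K := by exact_mod_cast hK
      push_cast
      have h3 : 1 / ((K : ℝ) + 1) ^ 2 ≤ 1 / (K : ℝ) - 1 / ((K : ℝ) + 1) := by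
        rw [div_sub_div _ _ (by positivity) (by positivity), div_le_div_iff₀ (by positivity) (by positivity)]
        nlinarith
      linarith
  refine h.trans ?_
  have : 0 ≤ 1 / (K : ℝ) := by positivity
  linarith

/-- decomposition `n = d² a b` -/
theorem decomp (y K : ℕ) {n : ℕ} (hn : n ∈ Icc 1 K) :
    ∃ t : ℕ × ℕ × ℕ, t ∈ Icc 1 K ×ˢ Icc 1 (primorial y) ×ˢ Q y K ∧ t.1 ^ 2 * (t.2.1 * t.2.2) = n := by
  classical
  rw [mem_Icc] at hn
  obtain ⟨s, d, h1, h2⟩ := Nat.sq_mul_squarefree n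
  have hs0 : s ≠ 0 := h2.ne_zero
  have hd0 : d ≠ 0 := by rintro rfl; simp at h1; omega
  have hsn : s ≤ n := by rw [← h1]; exact Nat.le_mul_of_pos_left _ (by positivity)
  have hprod := Nat.prod_primeFactors_of_squarefree h2
  set a := ∏ p ∈ s.primeFactors.filter (fun p => p ≤ y), p with ha
  set b := ∏ p ∈ s.primeFactors.filter (fun p => ¬ p ≤ y), p with hb
  have hab : a * b = s := by
    rw [← hprod, ha, hb]
    exact prod_filter_mul_prod_filter_not _ _ _
  have ha0 : 0 < a := Nat.pos_of_ne_zero (by rintro h; rw [h, zero_mul] at hab; exact hs0 hab.symm)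
  have hb0 : 0 < b := Nat.pos_of_ne_zero (by rintro h; rw [h, mul_zero] at hab; exact hs0 hab.symm)
  refine ⟨(d, a, b), ?_, ?_⟩
  · simp only [mem_product, mem_Icc, mem_Q]
    refine ⟨⟨Nat.pos_of_ne_zero hd0, ?_⟩, ⟨ha0, ?_⟩, ⟨hb0, ?_⟩, ?_, ?_⟩
    · have : d ≤ d ^ 2 := Nat.le_self_pow (by norm_num) d
      have h3 : d ^ 2 ≤ n := by rw [← h1]; exact Nat.le_mul_of_pos_right _ (Nat.pos_of_ne_zero hs0)
      omega
    · unfold primorial
      refine prod_le_prod_of_subset_of_one_le' ?_ ?_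
      · intro p hp
        rw [mem_filter, Nat.mem_primeFactors] at hp
        rw [mem_filter, mem_range]
        exact ⟨by omega, hp.1.1⟩
      · intro p hp _
        rw [mem_filter] at hp
        exact hp.2.one_lt.le
    · have : b ≤ s := by rw [← hab]; exact Nat.le_mul_of_pos_left _ ha0
      omega
    · exact h2.squarefree_of_dvd ⟨a, by rw [mul_comm]; exact hab.symm⟩
    · intro l hl hlb
      rw [hb] at hlb
      obtain ⟨p, hp, hlp⟩ := (Prime.dvd_finsetProd_iff hl.prime _).1 hlb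
      rw [mem_filter, Nat.mem_primeFactors] at hp
      have := (Nat.prime_dvd_prime_iff_eq hl hp.1.1).1 hlp
      omega
  · simp only
    rw [hab, h1]

theorem W_lower (y : ℕ) {K : ℕ} (hK : 1 ≤ K) : Real.log K ≤ 2 * primorial y * W y K := by
  classical
  choose! φ h1 h2 using fun (n : ℕ) (hn : n ∈ Icc 1 K) => decomp y K hn
  have hlog : Real.log K ≤ ∑ n ∈ Icc 1 K, (1 : ℝ) / n := by
    have := log_add_one_le_harmonic K
    rw [harmonic_eq_sum_Icc] at this
    push_cast at this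
    simp only [one_div]
    refine le_trans ?_ this
    apply Real.log_le_log (by exact_mod_cast hK)
    linarith
  refine hlog.trans ?_
  have hinj : Set.InjOn φ (Icc 1 K : Set ℕ) := by
    intro a ha b hb hab
    rw [mem_coe] at ha hb
    rw [← h2 a ha, ← h2 b hb, hab]
  have h3 : ∑ n ∈ Icc 1 K, (1 : ℝ) / n =
      ∑ t ∈ (Icc 1 K).image φ, (1 : ℝ) / (t.1 : ℝ) ^ 2 * ((1 / (t.2.1 : ℝ)) * (1 / (t.2.2 : ℝ))) := by
    rw [sum_image hinj]
    refine sum_congr rfl fun n hn => ?_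
    have := h2 n hn
    have h4 : (n : ℝ) = ((φ n).1 : ℝ) ^ 2 * (((φ n).2.1 : ℝ) * ((φ n).2.2 : ℝ)) := by
      exact_mod_cast this.symm
    rw [h4, one_div_mul_one_div, one_div_mul_one_div]
  rw [h3]
  calc ∑ t ∈ (Icc 1 K).image φ, (1 : ℝ) / (t.1 : ℝ) ^ 2 * ((1 / (t.2.1 : ℝ)) * (1 / (t.2.2 : ℝ)))
      ≤ ∑ t ∈ Icc 1 K ×ˢ Icc 1 (primorial y) ×ˢ Q y K,
          (1 : ℝ) / (t.1 : ℝ) ^ 2 * ((1 / (t.2.1 : ℝ)) * (1 / (t.2.2 : ℝ))) := by
        refine sum_le_sum_of_subset_of_nonneg ?_ (fun _ _ _ => by positivity)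
        intro t ht
        rw [mem_image] at ht
        obtain ⟨n, hn, rfl⟩ := ht
        exact h1 n hn
    _ = (∑ d ∈ Icc 1 K, (1 : ℝ) / (d : ℝ) ^ 2) *
          ((∑ a ∈ Icc 1 (primorial y), 1 / (a : ℝ)) * W y K) := by
        unfold W
        have h5 : ∀ d : ℕ, ∑ x ∈ Icc 1 (primorial y) ×ˢ Q y K,
            (1 : ℝ) / (d : ℝ) ^ 2 * ((1 / (x.1 : ℝ)) * (1 / (x.2 : ℝ))) =
            (1 : ℝ) / (d : ℝ) ^ 2 * ((∑ a ∈ Icc 1 (primorial y), 1 / (a : ℝ)) *
              ∑ k ∈ Q y K, 1 / (k : ℝ)) := by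
          intro d
          rw [← mul_sum, sum_product, sum_mul_sum]
        rw [sum_product, sum_mul]
        exact sum_congr rfl fun d _ => h5 d
    _ ≤ 2 * (primorial y * W y K) := by
        refine mul_le_mul (sum_sq K) ?_ (mul_nonneg (sum_nonneg fun _ _ => by positivity) (W_nonneg y K))
          (by norm_num)
        refine mul_le_mul_of_nonneg_right ?_ (W_nonneg y K)
        calc ∑ a ∈ Icc 1 (primorial y), 1 / (a : ℝ) ≤ ∑ a ∈ Icc 1 (primorial y), (1 : ℝ) := by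
              refine sum_le_sum fun a ha => ?_
              rw [mem_Icc] at ha
              rw [div_le_one (by exact_mod_cast ha.1)]
              exact_mod_cast ha.1
          _ = primorial y := by simp
    _ = 2 * primorial y * W y K := by ring

end Pool.Agent.H295R3.D6.TKD

namespace Pool.Agent.H295R3.D6

open TKD in
theorem taskKDEN : TaskKDEN := by
  classical
  rintro ⟨C, hC⟩
  refine ⟨⌈48 * (1 + C)⌉₊ + 1, fun y hy => ?_⟩
  have hy1 : 1 ≤ y := by omega
  have hyC : 48 * (1 + C) ≤ y := by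
    refine (Nat.le_ceil _).trans ?_
    exact_mod_cast (by omega : ⌈48 * (1 + C)⌉₊ ≤ y)
  have hP : (0 : ℝ) < primorial y := by exact_mod_cast primorial_pos y
  refine ⟨1 / (8 * primorial y), by positivity, ?_⟩
  have hev : ∀ᶠ K : ℕ in atTop, (8 * primorial y : ℝ) ≤ Real.log K :=
    (Real.tendsto_log_atTop.comp tendsto_natCast_atTop_atTop).eventually_ge_atTop _
  filter_upwards [hev, eventually_ge_atTop 1] with K hK hK1 s hs
  have hW := W_lower y hK1
  set B := (Q y K).filter (fun k => ¬ Nice y k) with hB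
  have hbad := bad hC hy1 hyC K (B := B) (filter_subset _ _) (by
    intro k hk
    rw [hB, mem_filter, mem_Q] at hk
    by_contra hcon
    push Not at hcon
    exact hk.2 ⟨hk.1.2.1, hk.1.2.2, fun a ha => hcon a ha⟩)
  have hsplit : W y K ≤ 1 + ∑ k ∈ s, (1 : ℝ) / k + ∑ k ∈ B, (1 : ℝ) / k := by
    unfold W
    have hsub : Q y K ⊆ (insert 1 s) ∪ B := by
      intro k hk
      rw [mem_union, mem_insert, hs, hB, mem_filter]
      have hk' := mem_Q.1 hk
      by_cases h : Nice y k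
      · by_cases h1 : k = 1
        · exact Or.inl (Or.inl h1)
        · exact Or.inl (Or.inr ⟨by omega, hk'.1.2, h⟩)
      · exact Or.inr ⟨hk, h⟩
    refine (sum_le_sum_of_subset_of_nonneg hsub (fun _ _ _ => by positivity)).trans ?_
    have h1s : (1 : ℕ) ∉ s := by rw [hs]; omega
    have hdis : Disjoint (insert 1 s) B ∨ True := Or.inr trivial
    have h2 : ∑ k ∈ (insert 1 s) ∪ B, (1 : ℝ) / k ≤
        ∑ k ∈ insert 1 s, (1 : ℝ) / k + ∑ k ∈ B, (1 : ℝ) / k := by
      rw [← sum_union_inter]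
      have : 0 ≤ ∑ k ∈ (insert 1 s) ∩ B, (1 : ℝ) / k := sum_nonneg fun _ _ => by positivity
      linarith
    refine h2.trans ?_
    rw [sum_insert h1s]
    norm_num
  have h3 : W y K / 2 ≤ 1 + ∑ k ∈ s, (1 : ℝ) / k := by linarith
  have h4 : Real.log K / (2 * primorial y) ≤ W y K := by
    rw [div_le_iff₀ (by positivity)]
    linarith
  have h5 : 1 ≤ 1 / (8 * (primorial y : ℝ)) * Real.log K := by
    rw [one_div, ← div_eq_inv_mul, le_div_iff₀ (by positivity)]
    linarith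
  have h6 : Real.log K / (2 * primorial y) = 4 * (1 / (8 * (primorial y : ℝ)) * Real.log K) := by
    field_simp
    ring
  linarith

end Pool.Agent.H295R3.D6
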