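import Pool.Agent.H295R3.D6.Stmts

set_option autoImplicit false

open Finset Filter

namespace Pool.Agent.H295R3.D6.TNI

theorem fact_one {q B : ℕ} (hq : q.Prime) (h1 : B < 2 * q) (h2 : q ≤ B) :
    B.factorial.factorization q = 1 := by
  rw [Nat.factorization_factorial hq (b := 2)]
  · rw [show Ico 1 2 = {1} from rfl, sum_singleton, pow_one]
    exact Nat.div_eq_of_lt_le (by omega) (by omega)
  · apply Nat.log_lt_of_lt_pow (by omega)
    nlinarith [hq.two_le]

theorem even_of_sq {n : ℕ} (h : IsSquare n) (q : ℕ) : Even (n.factorization q) := by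
  obtain ⟨r, rfl⟩ := h
  rcases Nat.eq_zero_or_pos r with rfl | hr
  · simp
  · rw [Nat.factorization_mul (by omega) (by omega)]
    simp

theorem fac_mul3 {a b c : ℕ} (ha : a ≠ 0) (hb : b ≠ 0) (hc : c ≠ 0) (q : ℕ) :
    (a * b * c).factorization q = a.factorization q + b.factorization q + c.factorization q := by
  rw [Nat.factorization_mul (mul_ne_zero ha hb) hc, Nat.factorization_mul ha hb]
  rfl

/-- a prime `l ∣ k`, `l > B` divides `j` -/
theorem dvd_j {k j B l : ℕ} (hk : Squarefree k) (hj : 1 ≤ j) (hsq : IsSquare (k * j * B.factorial))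
    (hl : l.Prime) (hlk : l ∣ k) (hB : B < l) : l ∣ j := by
  have h := even_of_sq hsq l
  rw [fac_mul3 hk.ne_zero (by omega) (Nat.factorial_ne_zero _),
    Nat.factorization_factorial_eq_zero_of_lt hB] at h
  have h1 : k.factorization l = 1 := by
    have h2 := hk.natFactorization_le_one l
    have h3 : 1 ≤ k.factorization l := (hl.dvd_iff_one_le_factorization hk.ne_zero).1 hlk
    omega
  rw [h1] at h
  rw [hl.dvd_iff_one_le_factorization (by omega)]
  by_contra hcon
  have : j.factorization l = 0 := by omega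
  rw [this] at h
  exact absurd h (by decide)

theorem dvd_kj {k j B q : ℕ} (hk : k ≠ 0) (hj : 1 ≤ j) (hsq : IsSquare (k * j * B.factorial))
    (hq : q.Prime) (h1 : B < 2 * q) (h2 : q ≤ B) : q ∣ k * j := by
  have h := even_of_sq hsq q
  rw [fac_mul3 hk (by omega) (Nat.factorial_ne_zero _), fact_one hq h1 h2] at h
  by_contra hcon
  have h3 : ¬ q ∣ k := fun h => hcon (h.mul_right _)
  have h4 : ¬ q ∣ j := fun h => hcon (h.mul_left _)
  rw [Nat.factorization_eq_zero_of_not_dvd h3, Nat.factorization_eq_zero_of_not_dvd h4] at h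
  exact absurd h (by decide)

end Pool.Agent.H295R3.D6.TNI

namespace Pool.Agent.H295R3.D6

open TNI in
theorem taskNICE : TaskNICE := by
  classical
  rintro ⟨B₀, hB₀, hcheb⟩
  refine ⟨B₀, fun y hy k j B hn hj hjk hsq => ?_⟩
  obtain ⟨hsf, hpr, hni⟩ := hn
  have hk0 : k ≠ 0 := hsf.ne_zero
  set k1 := ∏ l ∈ k.primeFactors.filter (fun l => B < l), l with hk1
  set k2 := ∏ l ∈ k.primeFactors.filter (fun l => ¬ B < l), l with hk2
  have hk12 : k1 * k2 = k := by
    refine Eq.trans ?_ (Nat.prod_primeFactors_of_squarefree hsf)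
    exact prod_filter_mul_prod_filter_not k.primeFactors (fun l => B < l) (fun l => l)
  have hk1j : k1 ∣ j := by
    rw [hk1]
    refine Finset.prod_primes_dvd j (fun l hl => ?_) (fun l hl => ?_)
    · rw [mem_filter, Nat.mem_primeFactors] at hl
      exact hl.1.1.prime
    · rw [mem_filter, Nat.mem_primeFactors] at hl
      exact dvd_j hsf hj hsq hl.1.1 hl.1.2.1 hl.2
  have hk1k : k1 ∣ k := ⟨k2, hk12.symm⟩
  set PP := ∏ q ∈ (Ioc (B / 2) B).filter Nat.Prime, q with hP
  have hPd : PP ∣ k * j := by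
    rw [hP]
    refine Finset.prod_primes_dvd _ (fun l hl => ?_) (fun l hl => ?_)
    · rw [mem_filter] at hl
      exact hl.2.prime
    · rw [mem_filter, mem_Ioc] at hl
      exact dvd_kj hk0 hj hsq hl.2 (by omega) hl.1.2
  have hcop : Nat.Coprime PP (k1 ^ 2) := by
    apply Nat.Coprime.pow_right
    rw [hP, hk1]
    refine Nat.Coprime.prod_left fun q hq => Nat.Coprime.prod_right fun l hl => ?_
    rw [mem_filter, mem_Ioc] at hq
    rw [mem_filter, Nat.mem_primeFactors] at hl
    exact (Nat.coprime_primes hq.2 hl.1.1).2 (by omega)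
  have hdvd : PP * k1 ^ 2 ∣ k * j := by
    refine hcop.mul_dvd_of_dvd_of_dvd hPd ?_
    rw [sq]
    exact mul_dvd_mul hk1k hk1j
  have hle : PP * k1 ^ 2 ≤ k * j := Nat.le_of_dvd (by positivity) hdvd
  have hk1pos : 0 < k1 := Nat.pos_of_ne_zero (by rintro h; rw [h, zero_mul] at hk12; exact hk0 hk12.symm)
  have hk2pos : 0 < k2 := Nat.pos_of_ne_zero (by rintro h; rw [h, mul_zero] at hk12; exact hk0 hk12.symm)
  have hlt : PP < k2 ^ 2 := by
    have h1 : k * j < k1 ^ 2 * k2 ^ 2 := by
      rw [← mul_pow, hk12, sq]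
      exact Nat.mul_lt_mul_of_pos_left hjk (by omega)
    have h2 : k1 ^ 2 * PP < k1 ^ 2 * k2 ^ 2 := by
      rw [mul_comm (k1 ^ 2) PP]
      omega
    exact lt_of_mul_lt_mul_left h2 (Nat.zero_le _)
  by_cases hBy : B < y
  · -- then `k2 = 1`
    have : k2 = 1 := by
      rw [hk2]
      refine prod_eq_one fun l hl => ?_
      rw [mem_filter, Nat.mem_primeFactors] at hl
      have := hpr l hl.1.1 hl.1.2.1
      omega
    rw [this, mul_one] at hk12
    rw [hk12] at hk1j
    have := Nat.le_of_dvd (by omega) hk1j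
    omega
  · push Not at hBy
    have h1 := hcheb B (by omega)
    have h2 := hni B hBy
    have hPpos : 0 < PP := Nat.pos_of_ne_zero (by
      rw [hP, prod_ne_zero_iff]
      intro q hq
      rw [mem_filter] at hq
      exact hq.2.ne_zero)
    have h3 : Real.log PP = ∑ q ∈ (Ioc (B / 2) B).filter Nat.Prime, Real.log q := by
      rw [hP, Nat.cast_prod, Real.log_prod]
      intro q hq
      rw [mem_filter] at hq
      exact_mod_cast hq.2.ne_zero
    have h4 : Real.log k2 = ∑ l ∈ (Icc 1 B).filter (fun l => l.Prime ∧ l ∣ k), Real.log l := by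
      rw [hk2, Nat.cast_prod, Real.log_prod]
      · refine sum_congr ?_ fun _ _ => rfl
        ext l
        rw [mem_filter, mem_filter, Nat.mem_primeFactors, mem_Icc]
        constructor
        · rintro ⟨⟨h1, h2, h3⟩, h4⟩
          exact ⟨⟨h1.one_lt.le, by omega⟩, h1, h2⟩
        · rintro ⟨⟨h1, h2⟩, h3, h4⟩
          exact ⟨⟨h3, h4, hk0⟩, by omega⟩
      · intro l hl
        rw [mem_filter, Nat.mem_primeFactors] at hl
        exact_mod_cast hl.1.1.ne_zero
    have h5 : Real.log PP < 2 * Real.log k2 := by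
      have := Real.log_lt_log (by exact_mod_cast hPpos)
        (show (PP : ℝ) < (k2 : ℝ) ^ 2 by exact_mod_cast hlt)
      rwa [Real.log_pow] at this
    rw [← h3] at h1
    rw [← h4] at h2
    linarith

end Pool.Agent.H295R3.D6
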